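import Pool.Agent.Helper20.NS5.Goals2

/-!
# NS5, packet TLK: two conversations with the same queries
-/

namespace Pool.Agent.Helper86.NS5

open Pool.Agent.Helper20.NS5

section

variable {X : Type} (G G' : List Bool → X) (B : Set (List X))

theorem len (i : ℕ) : (talk G B i).1.length = i ∧ (talk G B i).2.length = i := by
  induction i with
  | zero => exact ⟨rfl, rfl⟩
  | succ i ih =>
    unfold talk
    simp only [List.length_append, List.length_singleton, ih.1, ih.2]
    exact ⟨trivial, trivial⟩

theorem snd_succ (i : ℕ) : (talk G B (i + 1)).2 = (talk G B i).2 ++ [G (talk G B i).1] := rfl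

open Classical in
theorem fst_succ (i : ℕ) :
    (talk G B (i + 1)).1 = (talk G B i).1 ++ [decide ((talk G B (i + 1)).2 ∈ B)] := rfl

theorem snd_iff (i : ℕ) : (talk G B (i + 1)).2 = (talk G' B (i + 1)).2 ↔
    (talk G B i).2 = (talk G' B i).2 ∧ G (talk G B i).1 = G' (talk G' B i).1 := by
  rw [snd_succ, snd_succ]
  constructor
  · intro h
    have h1 := List.append_inj h (by rw [(len G B i).2, (len G' B i).2])
    refine ⟨h1.1, ?_⟩
    have h2 := h1.2
    simpa using h2
  · rintro ⟨h1, h2⟩
    rw [h1, h2]

theorem fst_eq (i : ℕ) (h : (talk G B i).2 = (talk G' B i).2) :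
    (talk G B i).1 = (talk G' B i).1 := by
  induction i with
  | zero => rfl
  | succ i ih =>
    have h1 := (snd_iff G G' B i).mp h
    rw [fst_succ, fst_succ, h, ih h1.1]

theorem key (i : ℕ) : (talk G B i).2 = (talk G' B i).2 ↔
    ∀ t < i, G ((talk G B i).1.take t) = G' ((talk G B i).1.take t) := by
  induction i with
  | zero =>
    constructor
    · intro _ t ht
      exact absurd ht (Nat.not_lt_zero t)
    · intro _
      rfl
  | succ i ih =>
    have hl := (len G B i).1
    have ht : ∀ t ≤ i, (talk G B (i + 1)).1.take t = (talk G B i).1.take t := by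
      intro t ht
      rw [fst_succ, List.take_append_of_le_length (by rw [hl]; exact ht)]
    have hi : (talk G B i).1.take i = (talk G B i).1 := List.take_of_length_le (by rw [hl])
    rw [snd_iff]
    constructor
    · rintro ⟨h1, h2⟩ t hti
      rw [ht t (by omega)]
      rcases Nat.lt_succ_iff_lt_or_eq.mp hti with h3 | h3
      · exact ih.mp h1 t h3
      · rw [h3, hi]
        rw [← fst_eq G G' B i h1] at h2
        exact h2
    · intro h
      have h1 : (talk G B i).2 = (talk G' B i).2 := ih.mpr fun t hti => by
        have := h t (by omega)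
        rwa [ht t (by omega)] at this
      refine ⟨h1, ?_⟩
      have h2 := h i (by omega)
      rw [ht i le_rfl, hi] at h2
      rw [← fst_eq G G' B i h1]
      exact h2

end

theorem tlk : TLK_stmt := by
  intro X G G' B i
  have hl := (len G B i).1
  refine ⟨hl, ?_⟩
  have hi : (talk G B i).1.take i = (talk G B i).1 := List.take_of_length_le (by rw [hl])
  rw [snd_iff, key]
  constructor
  · rintro ⟨h1, h2⟩ t hti
    rcases Nat.lt_or_eq_of_le hti with h3 | h3
    · exact h1 t h3
    · rw [h3, hi]
      rw [← fst_eq G G' B i ((key G G' B i).mpr h1)] at h2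
      exact h2
  · intro h
    have h1 : ∀ t < i, G ((talk G B i).1.take t) = G' ((talk G B i).1.take t) :=
      fun t hti => h t hti.le
    refine ⟨h1, ?_⟩
    have h2 := h i le_rfl
    rw [hi] at h2
    rw [← fst_eq G G' B i ((key G G' B i).mpr h1)]
    exact h2

end Pool.Agent.Helper86.NS5
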